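import Pool.Agent.Lib.helper1.Cs2

set_option autoImplicit false

namespace Pool.Agent.Results.MP_6fb3b3_lc.Cost

open Finset

/-- `P n d` is the party holding contract `n` on day `d`; on day `N - 1` it is the owner `n` -/
def Fast {N : ℕ} (P : Fin N → Equiv.Perm (Fin N)) : Prop :=
  ∀ n d : Fin N, d.val + 1 = N → P n d = n

/-- the envelopes: triples `(d, i, j)` such that some contract is at `i` on day `d` and at `j` on
day `d + 1 ≤ N - 1` -/
def sends {N : ℕ} (P : Fin N → Equiv.Perm (Fin N)) : Finset (Fin N × Fin N × Fin N) :=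
  {e | ∃ n d' : Fin N, d'.val = e.1.val + 1 ∧ P n e.1 = e.2.1 ∧ P n d' = e.2.2}

theorem result (N : ℕ) (hN : 2 ≤ N) :
    IsLeast {c | ∃ P : Fin N → Equiv.Perm (Fin N), Fast P ∧ #(sends P) = c} (4 * N - 6) :=
  Pool.Agent.Lib.helper1.Cs.least hN

end Pool.Agent.Results.MP_6fb3b3_lc.Cost
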